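import Pool.Agent.K6.H44.VT.ASMain
import Pool.Agent.K6.H44.VT.Indep
import Pool.Agent.W558.Var

/-!
MP_b525bf_ag: resolution of Artin-Schreier covers of quadratic type over a smooth affine curve, in
every dimension and every characteristic `p ≠ 2`. The variety is an integral hypersurface
`e * z ^ p + g * z + q(x) + ∑ j, c j * y ^ b j = 0` in an affine space over the curve, with `e` and
`g` nonzero functions on the curve, `q` any polynomial of degree at most two in the variables `x`
over the coordinate ring `R` of the curve, and monomials `y ^ b j` whose exponents are linearly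
independent modulo `p` (there may be no variables `y`). There is no smoothness hypothesis: the
singularities lie in the fibres over the zeros of `g`, where the cover is wildly ramified.

Near such a point the quadratic polynomial `q` is diagonalized up to terms of high order, and the
remaining constant is improved by translations of `z`, until its order is prime to `p` (relative to
that of `e`) or the linear term in `z` dominates; then the equation is nondegenerate with respect to
its Newton polyhedron, and is resolved by toroidal modifications with centres over the point.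
-/

set_option autoImplicit false

open AlgebraicGeometry CategoryTheory MvPolynomial

universe u

namespace Pool.Agent.Results.MP_b525bf_ag.ArtinSchreier

/-- The polynomial `e * z ^ p + g * z + q(x) + ∑ j, c j * ∏ l, y l ^ b j l`. The variable `x i` is
`X (Sum.inl i)`, the variable `z` is `X (Sum.inr none)` and the variable `y l` is
`X (Sum.inr (some l))`. -/
noncomputable def equation {R : Type u} [CommRing R] {n r s : ℕ} (p : ℕ) (e g : R)
    (q : MvPolynomial (Fin n) R) (c : Fin s → R) (b : Fin s → Fin r → ℕ) :
    MvPolynomial (Fin n ⊕ Option (Fin r)) R :=
  C e * X (Sum.inr none) ^ p + C g * X (Sum.inr none) + rename Sum.inl q +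
    ∑ j, C (c j) * ∏ l, X (Sum.inr (some l)) ^ b j l

/-- Let `k` be a perfect field of characteristic `p ≠ 2` and let `R` be a Dedekind domain which is a
smooth `k`-algebra. Let `e`, `g` be nonzero elements of `R` and let `q` be a polynomial in `n`
variables over `R` of total degree at most two. Let `c 0, ..., c (s - 1)` be nonzero elements of `R`
and let `y ^ b 0, ..., y ^ b (s - 1)` be monomials in `r` further variables whose exponent vectors
are linearly independent modulo `p`. If the ideal generated by
`F = e * z ^ p + g * z + q(x) + ∑ j, c j * y ^ b j` is prime then the variety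
`Spec R[x, z, y] / (F)` over `k` has a resolution of singularities. -/
theorem result (p : ℕ) [Fact p.Prime] (hp : p ≠ 2) (k R : Type u) [Field k] [PerfectField k]
    [CharP k p] [CommRing R] [IsDedekindDomain R] [Algebra k R] [Algebra.Smooth k R] (e g : R)
    (he : e ≠ 0) (hg : g ≠ 0) (n : ℕ) (q : MvPolynomial (Fin n) R) (hq : q.totalDegree ≤ 2)
    (r s : ℕ) (c : Fin s → R) (hc : ∀ j, c j ≠ 0) (b : Fin s → Fin r → ℕ)
    (hb : LinearIndependent (ZMod p) fun j => fun l => (b j l : ZMod p))
    (hF : (Ideal.span {equation p e g q c b}).IsPrime) :
    Pool.Agent.W558.IsResolvableVariety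
      (X := Spec (CommRingCat.of (MvPolynomial (Fin n ⊕ Option (Fin r)) R ⧸
        Ideal.span {equation p e g q c b})))
      (Spec.map (CommRingCat.ofHom (algebraMap k _))) := by
  have h2k : (2 : k) ≠ 0 := by
    intro h2
    have h3 : ((2 : ℕ) : k) = 0 := by exact_mod_cast h2
    rw [CharP.cast_eq_zero_iff k p] at h3
    exact hp ((Nat.prime_dvd_prime_iff_eq Fact.out Nat.prime_two).1 h3)
  have hfin : Algebra.FiniteType k
      (MvPolynomial (Fin n ⊕ Option (Fin r)) R ⧸ Ideal.span {equation p e g q c b}) :=
    inferInstance
  have hdom : IsDomain
      (MvPolynomial (Fin n ⊕ Option (Fin r)) R ⧸ Ideal.span {equation p e g q c b}) :=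
    Ideal.Quotient.isDomain _
  refine Pool.Agent.W558.isResolvableVariety_spec ?_
  exact Pool.Agent.K6.H44.VT.as_main p h2k e g he hg q hq c hc b (fun κ _ _ c' => by
    have hκ : CharP κ p := charP_of_injective_algebraMap (algebraMap k κ).injective p
    exact Pool.Agent.K6.H44.VT.exists_w b hb κ c') hF

end Pool.Agent.Results.MP_b525bf_ag.ArtinSchreier
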