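import Pool.Agent.K6.H44.VT.PIMain
import Pool.Agent.K6.H44.VT.Indep
import Pool.Agent.W558.Var

/-!
MP_b525bf_ag: resolution of purely inseparable covers of quadratic type over a smooth affine curve,
in every dimension and every characteristic `p ≠ 2`. The variety is an integral hypersurface
`e * z ^ p + q(x) + ∑ j, c j * y ^ b j = 0` in an affine space over the curve, with `e` a nonzero
function on the curve, `q` a polynomial of degree at most two in the variables `x` over the
coordinate ring `R` of the curve such that `e * z ^ p + q(x) = 0` is smooth over `k` outside
finitely many fibres, and monomials `y ^ b j` whose exponents are linearly independent modulo `p`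
(there may be no variables `y`).

Near a point of the curve the quadratic polynomial `q` is diagonalized up to terms of high order,
and the remaining constant is improved by translations of `z` (by elements which depend on the
point), until its order is prime to `p` relative to that of `e`; then the equation is nondegenerate
with respect to its Newton polyhedron, and is resolved by toroidal modifications with centres over
the point.
-/

set_option autoImplicit false

open AlgebraicGeometry CategoryTheory MvPolynomial

universe u

namespace Pool.Agent.Results.MP_b525bf_ag.InseparableQuadrics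

/-- The polynomial `e * z ^ p + q(x)`. The variable `z` is `X none` and the variable `x i` is
`X (some i)`. -/
noncomputable def cover {R : Type u} [CommRing R] {n : ℕ} (p : ℕ) (e : R)
    (q : MvPolynomial (Fin n) R) : MvPolynomial (Option (Fin n)) R :=
  C e * X none ^ p + rename some q

/-- The Jacobian ideal over `k`: the ideal generated by `G` and by its images under all derivations
over `k`. The hypersurface `G = 0` in a smooth variety `Spec A` over a perfect field `k` is smooth
over `k` outside the zeros of this ideal. -/
def jacobianIdeal (k : Type u) {A : Type u} [Field k] [CommRing A] [Algebra k A] (G : A) :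
    Ideal A :=
  Ideal.span ({G} ∪ Set.range fun D : Derivation k A A => D G)

/-- The polynomial `e * z ^ p + q(x) + ∑ j, c j * ∏ l, y l ^ b j l`. The variable `x i` is
`X (Sum.inl i)`, the variable `z` is `X (Sum.inr none)` and the variable `y l` is
`X (Sum.inr (some l))`. -/
noncomputable def equation {R : Type u} [CommRing R] {n r s : ℕ} (p : ℕ) (e : R)
    (q : MvPolynomial (Fin n) R) (c : Fin s → R) (b : Fin s → Fin r → ℕ) :
    MvPolynomial (Fin n ⊕ Option (Fin r)) R :=
  C e * X (Sum.inr none) ^ p + rename Sum.inl q +
    ∑ j, C (c j) * ∏ l, X (Sum.inr (some l)) ^ b j l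

/-- Let `k` be a perfect field of characteristic `p ≠ 2` and let `R` be a Dedekind domain which is a
smooth `k`-algebra. Let `e` be a nonzero element of `R` and let `q` be a polynomial in `n`
variables over `R` of total degree at most two, such that the Jacobian ideal over `k` of
`e * z ^ p + q(x)` contains a nonzero element `h` of `R` (the hypersurface `e * z ^ p + q(x) = 0` is
smooth over `k` outside finitely many fibres). Let `c 0, ..., c (s - 1)` be nonzero elements of `R`
and let `y ^ b 0, ..., y ^ b (s - 1)` be monomials in `r` further variables whose exponent vectors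
are linearly independent modulo `p`. If the ideal generated by
`F = e * z ^ p + q(x) + ∑ j, c j * y ^ b j` is prime then the variety `Spec R[x, z, y] / (F)` over
`k` has a resolution of singularities. -/
theorem result (p : ℕ) [Fact p.Prime] (hp : p ≠ 2) (k R : Type u) [Field k] [PerfectField k]
    [CharP k p] [CommRing R] [IsDedekindDomain R] [Algebra k R] [Algebra.Smooth k R] (e : R)
    (he : e ≠ 0) (n : ℕ) (q : MvPolynomial (Fin n) R) (hq : q.totalDegree ≤ 2)
    (h : R) (h0 : h ≠ 0) (hh : C h ∈ jacobianIdeal k (cover p e q))
    (r s : ℕ) (c : Fin s → R) (hc : ∀ j, c j ≠ 0) (b : Fin s → Fin r → ℕ)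
    (hb : LinearIndependent (ZMod p) fun j => fun l => (b j l : ZMod p))
    (hF : (Ideal.span {equation p e q c b}).IsPrime) :
    Pool.Agent.W558.IsResolvableVariety
      (X := Spec (CommRingCat.of (MvPolynomial (Fin n ⊕ Option (Fin r)) R ⧸
        Ideal.span {equation p e q c b})))
      (Spec.map (CommRingCat.ofHom (algebraMap k _))) := by
  have h2k : (2 : k) ≠ 0 := by
    intro h2
    have h3 : ((2 : ℕ) : k) = 0 := by exact_mod_cast h2
    rw [CharP.cast_eq_zero_iff k p] at h3
    exact hp ((Nat.prime_dvd_prime_iff_eq Fact.out Nat.prime_two).1 h3)
  have hfin : Algebra.FiniteType k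
      (MvPolynomial (Fin n ⊕ Option (Fin r)) R ⧸ Ideal.span {equation p e q c b}) :=
    inferInstance
  have hdom : IsDomain
      (MvPolynomial (Fin n ⊕ Option (Fin r)) R ⧸ Ideal.span {equation p e q c b}) :=
    Ideal.Quotient.isDomain _
  refine Pool.Agent.W558.isResolvableVariety_spec ?_
  have heq : equation p e q c b = Pool.Agent.K6.H44.VT.asF p e 0 q c b := by
    unfold equation Pool.Agent.K6.H44.VT.asF
    rw [map_zero, zero_mul, add_zero]
  rw [heq] at hF ⊢
  exact Pool.Agent.K6.H44.VT.pi_main p h2k e he q hq c hc b (fun κ _ _ c' => by
    have hκ : CharP κ p := charP_of_injective_algebraMap (algebraMap k κ).injective p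
    exact Pool.Agent.K6.H44.VT.exists_w b hb κ c') h h0 hh hF

end Pool.Agent.Results.MP_b525bf_ag.InseparableQuadrics
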