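import Pool.Agent.K6.H44.VT.Triv
import Pool.Agent.W558.Var

/-!
MP_b525bf_ag: resolution of families of affine quadrics of any dimension over a smooth affine curve
in characteristic `p ≠ 2`. The family is an integral hypersurface `q(x) + ∑ j, c j * y ^ b j = 0` in
an affine space over the curve, where `q` is a polynomial of degree at most two with coefficients
in the coordinate ring `R` of the curve whose generic fibre is smooth, and where the monomials
`y ^ b j` have exponents which are linearly independent modulo `p` (there may be no variables `y`).

Near a closed point of the curve the quadratic polynomial `q` can be diagonalized up to terms of high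
order, but the coordinates depend on the point. The proof uses toroidal modifications whose centres
lie over the closed point, so that they glue.
-/

set_option autoImplicit false

open AlgebraicGeometry CategoryTheory MvPolynomial

universe u

namespace Pool.Agent.Results.MP_b525bf_ag.QuadricBundles

/-- The polynomial `q(x) + ∑ j, c j * ∏ l, y l ^ b j l` in the variables `x 0, ..., x (n - 1)` and
`y 0, ..., y (r - 1)`. -/
noncomputable def equation {R : Type u} [CommRing R] {n r s : ℕ} (q : MvPolynomial (Fin n) R)
    (c : Fin s → R) (b : Fin s → Fin r → ℕ) : MvPolynomial (Fin n ⊕ Fin r) R :=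
  rename Sum.inl q + ∑ j, C (c j) * ∏ l, X (Sum.inr l) ^ b j l

/-- Let `k` be a perfect field of characteristic `p ≠ 2` and let `R` be a Dedekind domain which is a
smooth `k`-algebra. Let `q` be a polynomial in `n` variables over `R` of total degree at most two
such that the ideal generated by `q` and its partial derivatives contains a nonzero element `h` of
`R` (the generic fibre of `q = 0` is smooth). Let `c 0, ..., c (s - 1)` be nonzero elements of `R`
and let `y ^ b 0, ..., y ^ b (s - 1)` be monomials in `r` further variables whose exponent vectors
are linearly independent modulo `p`. If the ideal generated by `F = q(x) + ∑ j, c j * y ^ b j` is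
prime then the variety `Spec R[x, y] / (F)` over `k` has a resolution of singularities. -/
theorem result (p : ℕ) [Fact p.Prime] (hp : p ≠ 2) (k R : Type u) [Field k] [PerfectField k]
    [CharP k p] [CommRing R] [IsDedekindDomain R] [Algebra k R] [Algebra.Smooth k R] (n : ℕ)
    (q : MvPolynomial (Fin n) R) (hq : q.totalDegree ≤ 2) (h : R) (h0 : h ≠ 0)
    (hh : C h ∈ Ideal.span ({q} ∪ Set.range fun i => pderiv i q)) (r s : ℕ) (c : Fin s → R)
    (hc : ∀ j, c j ≠ 0) (b : Fin s → Fin r → ℕ)
    (hb : LinearIndependent (ZMod p) fun j => fun l => (b j l : ZMod p))
    (hF : (Ideal.span {equation q c b}).IsPrime) :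
    Pool.Agent.W558.IsResolvableVariety
      (X := Spec (CommRingCat.of (MvPolynomial (Fin n ⊕ Fin r) R ⧸ Ideal.span {equation q c b})))
      (Spec.map (CommRingCat.ofHom (algebraMap k _))) := by
  have h2k : (2 : k) ≠ 0 := by
    intro h2
    have h3 : ((2 : ℕ) : k) = 0 := by exact_mod_cast h2
    rw [CharP.cast_eq_zero_iff k p] at h3
    exact hp ((Nat.prime_dvd_prime_iff_eq Fact.out Nat.prime_two).1 h3)
  have hfin : Algebra.FiniteType k
      (MvPolynomial (Fin n ⊕ Fin r) R ⧸ Ideal.span {equation q c b}) := inferInstance
  have hdom : IsDomain (MvPolynomial (Fin n ⊕ Fin r) R ⧸ Ideal.span {equation q c b}) :=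
    Ideal.Quotient.isDomain _
  refine Pool.Agent.W558.isResolvableVariety_spec ?_
  by_cases hcst : ∃ a : R, equation q c b = C a
  · obtain ⟨a, ha⟩ := hcst
    rw [ha] at hF ⊢
    exact Pool.Agent.K6.H44.VT.const_case a hF
  · push Not at hcst
    exact Pool.Agent.K6.H44.VT.quadric_main h2k q hq c hc b (fun κ _ _ c' => by
      have hκ : CharP κ p := charP_of_injective_algebraMap (algebraMap k κ).injective p
      exact Pool.Agent.K6.H44.VT.exists_w b hb κ c') hF hcst h h0 hh

end Pool.Agent.Results.MP_b525bf_ag.QuadricBundles
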