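import Pool.Agent.K6.H44.QG.Act

/-!
MP_b525bf_ag: resolution of the quotients of smooth affine families over (possibly singular)
surfaces of characteristic `p` by finite groups of sections of the general linear group. The groups
are arbitrary (wild) finite groups of matrices whose entries are functions on the surface, and the
dimension of the fibres is arbitrary. Examples, for a surface `B = Spec R`: the quotients of
`B × 𝔸 ^ m` by the finite groups of translations `(b, x) ↦ (b, x + γ b)`, `γ ∈ Γ ⊂ R ^ m`, and the
quotients of `B × G`, where `G` is an integral smooth closed subgroup of `GL_n`, by the finite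
subgroups `Γ` of `G (R)`, acting by translations on the fibres `G`.

The group of sections degenerates over a curve in the surface, and its closure is not flat. The
surface is blown up such that the closure of the group becomes a finite flat group scheme. It acts
freely, so that the quotient of the base change is smooth.
-/

set_option autoImplicit false

open AlgebraicGeometry CategoryTheory

namespace Pool.Agent.Results.MP_b525bf_ag.SectionQuotients

/-- Let `k` be a perfect field of characteristic `p` and `B = Spec R` an affine integral scheme of
finite type over `k`, whose function field `E` is the function field of a smooth projective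
surface over `k` (`B` is a surface which may be singular), or, more generally, such that any finite
family of nonzero elements of `E` has its zeros and poles in a simple normal crossings divisor on
some smooth projective variety with function field `E` (`HasLogModels`). Let `X = Spec A` be an
integral scheme which is smooth over `B` (of any relative dimension) with nonempty generic fibre,
and let `Γ` be a finite group of invertible `n × n`-matrices over `R`, which acts on `X` over `B`
such that

* the action is algebraic: for each function `a` on `X`, `γ • a` is a polynomial in the entries of
  `γ` with coefficients in `A`, for all `γ ∈ Γ`,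
* the closure of `Γ` acts freely: each entry of `γ` is `∑ l, x l * (γ • y l)` for all `γ ∈ Γ`,
  with functions `x l`, `y l` on `X`. For instance there is an invertible matrix `Φ` over `A` with
  `γ • Φ = Φ γ` for all `γ`, or with `γ • Φ = γ⁻¹ Φ` for all `γ`.

Then the variety `X / Γ`, the spectrum of the ring of invariants of `Γ` in `A`, has a resolution of
singularities. -/
theorem result (p : ℕ) [Fact p.Prime] (k R E A Γ : Type) [Field k] [PerfectField k] [CharP k p]
    [CommRing R] [IsDomain R] [Algebra k R] [Algebra.FiniteType k R]
    [Field E] [Algebra R E] [IsFractionRing R E] [Algebra k E] [IsScalarTower k R E]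
    (hE : (Algebra.trdeg k E = 2 ∧ Pool.Agent.W558.HasModel k E) ∨
      Pool.Agent.W558.HasLogModels k E)
    [CommRing A] [IsDomain A] [Algebra R A] [FaithfulSMul R A] [Algebra.Smooth R A]
    [Algebra k A] [IsScalarTower k R A]
    [Group Γ] [Finite Γ] [MulSemiringAction Γ A] [SMulCommClass Γ R A]
    (n : ℕ) (φ : Γ →* GL (Fin n) R) (hφ : Function.Injective φ)
    (hact : ∀ a : A, ∃ P : MvPolynomial (Fin n × Fin n) A, ∀ γ : Γ,
      γ • a = P.eval fun q => algebraMap R A ((φ γ : Matrix (Fin n) (Fin n) R) q.1 q.2))
    (hfree : ∀ i j, ∃ (m : ℕ) (x y : Fin m → A), ∀ γ : Γ,
      algebraMap R A ((φ γ : Matrix (Fin n) (Fin n) R) i j) = ∑ l, x l * (γ • y l)) :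
    Pool.Agent.W558.IsResolvableVariety
      (X := Spec (CommRingCat.of (FixedPoints.subalgebra R A Γ)))
      (Spec.map (CommRingCat.ofHom (algebraMap k (FixedPoints.subalgebra R A Γ)))) := by
  refine Pool.Agent.K6.H44.QG.resolvable (E := E) p ?_ φ hφ hact hfree
  rcases hE with ⟨h2, hM⟩ | h
  · exact Pool.Agent.W418.LCI.hasLM_of_surface k E h2 hM
  · exact Pool.Agent.W418.LCI.hasLM_of_models k E h

end Pool.Agent.Results.MP_b525bf_ag.SectionQuotients
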